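import Pool.Agent.Helper76.TK7.StK

/-!
# Project TK (level `3 * 7^n`), module EDGK7: values on translated paths (adapted from Pool/Agent/Helper45/TK5/M_EDGK.lean)
-/

set_option autoImplicit false

namespace Pool.Agent.Helper46.TK7

open Pool.Agent.Helper76.TK7 Pool.Agent.Helper4.TK Pool.Agent.Helper76.S7
open Pool.Agent.Helper14.CV (Homog EqC act)

private theorem dv (r : ℕ) (z : ZMod (7 ^ r)) (a b a' b' : ℤ) (h : (b : ZMod (7 ^ r)) = z * a)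
    (h' : (b' : ZMod (7 ^ r)) = z * a') : (7 : ℤ) ^ r ∣ a * b' - a' * b := by
  have h1 : ((a * b' - a' * b : ℤ) : ZMod (7 ^ r)) = 0 := by
    push_cast
    rw [h, h']
    ring
  have h2 := (ZMod.intCast_zmod_eq_zero_iff_dvd (a * b' - a' * b) (7 ^ r)).1 h1
  push_cast at h2
  exact h2

private theorem vec_ne {e X Y u1 u2 : ℤ} (hu : u1 ≠ 0 ∨ u2 ≠ 0) :
    u1 + e * X * u2 ≠ 0 ∨ 7 * Y * u1 + (1 + e * 7 * X * Y) * u2 ≠ 0 := by
  by_contra h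
  push Not at h
  obtain ⟨h1, h2⟩ := h
  have e2 : u2 = 0 := by linear_combination h2 - 7 * Y * h1
  have e1 : u1 = 0 := by rw [e2] at h1; linear_combination h1
  rcases hu with hu | hu
  · exact hu e1
  · exact hu e2

private theorem three_of_seven {z : ℤ} (h : (3 : ℤ) ∣ 7 * z) : (3 : ℤ) ∣ z := by omega

/-- MODULE EDGK7. -/
theorem hEdgK : StHEdgK := by
  intro hPlA R _ μ r s G hG u1 u2 v1 v2 hu hv x y a b c d hP
  obtain ⟨hT, hx, hy⟩ := hP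
  obtain ⟨hT0, hx0, hy0⟩ := hPlA μ r s x y
  obtain ⟨X, hX⟩ : ∃ X : ℤ, X = (x.val : ℤ) := ⟨_, rfl⟩
  obtain ⟨Y, hY⟩ : ∃ Y : ℤ, Y = rYK μ x y := ⟨_, rfl⟩
  rw [← hX] at hT0 hx0 hy0
  rw [← hY] at hT0 hy0
  have hYe : (3 : ℤ) ∣ Y := by
    rcases hT0 with h | h
    · exact three_of_seven h.2
    · exact three_of_seven h.2.2.1
  have hβ : (7 : ℤ) ^ (r + μ) ∣ 7 ^ μ * (b - a * X) := by
    have h1 := dv r x 1 X a b hx0 hx
    rw [pow_add, mul_comm ((7 : ℤ) ^ r)]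
    refine mul_dvd_mul_left _ ?_
    rwa [one_mul] at h1
  have hγ : (7 : ℤ) ^ (s + 1) ∣ 7 * ((1 + 7 ^ (μ + 1) * X * Y) * c - d * Y) := by
    have h1 := dv s y (1 + 7 ^ (μ + 1) * X * Y) Y d c hy0 hy
    rw [pow_succ, mul_comm ((7 : ℤ) ^ s)]
    exact mul_dvd_mul_left _ h1
  have hH : KTy (a * (1 + 7 ^ (μ + 1) * X * Y) - 7 ^ μ * b * (7 * Y)) (7 ^ μ * (b - a * X))
      (7 * ((1 + 7 ^ (μ + 1) * X * Y) * c - d * Y)) (d - 7 * c * (7 ^ μ * X)) := by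
    have edet : (a * (1 + 7 ^ (μ + 1) * X * Y) - 7 ^ μ * b * (7 * Y)) * (d - 7 * c * (7 ^ μ * X)) -
        (7 ^ μ * (b - a * X)) * (7 * ((1 + 7 ^ (μ + 1) * X * Y) * c - d * Y)) =
        a * d - (7 ^ μ * b) * (7 * c) := by
      rw [pow_succ]
      ring
    obtain ⟨Y', rfl⟩ := hYe
    rcases hT with ⟨h1, h2⟩ | ⟨h1, h2, h3, h4⟩
    · obtain ⟨c', rfl⟩ := three_of_seven h2
      refine Or.inl ⟨edet.trans h1, ?_⟩
      exact ⟨7 * ((1 + 7 ^ (μ + 1) * X * (3 * Y')) * c' - d * Y'), by ring⟩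
    · obtain ⟨c', rfl⟩ := three_of_seven h3
      obtain ⟨a', rfl⟩ := h2
      obtain ⟨d', rfl⟩ := h4
      refine Or.inr ⟨edet.trans h1, ?_, ?_, ?_⟩
      · exact ⟨a' * (1 + 7 ^ (μ + 1) * X * (3 * Y')) - 7 ^ μ * b * (7 * Y'), by ring⟩
      · exact ⟨7 * ((1 + 7 ^ (μ + 1) * X * (3 * Y')) * c' - 3 * d' * Y'), by ring⟩
      · exact ⟨d' - 7 * c' * (7 ^ μ * X), by ring⟩
  obtain ⟨k, hk⟩ := hG.2 _ _ _ _ hH (by exact_mod_cast hβ) (by exact_mod_cast hγ)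
  have key : ∀ w1 w2 : ℤ, (w1 ≠ 0 ∨ w2 ≠ 0) → G (a * w1 + 7 ^ μ * b * w2) (7 * c * w1 + d * w2)
      = G (w1 + 7 ^ μ * X * w2) (7 * Y * w1 + (1 + 7 ^ (μ + 1) * X * Y) * w2) + k := by
    intro w1 w2 hw
    have hne := vec_ne (e := 7 ^ μ) (X := X) (Y := Y) hw
    have hD : (1 + 7 ^ μ * 7 * X * Y) = 1 + 7 ^ (μ + 1) * X * Y := by
      rw [pow_succ]
    rw [hD] at hne
    have := hk _ _ hne
    rw [act] at this
    rw [← this]
    congr 1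
    · rw [pow_succ]
      ring
    · rw [pow_succ]
      ring
  rw [edgeK, ← hX, ← hY, key u1 u2 hu, key v1 v2 hv]
  abel

end Pool.Agent.Helper46.TK7
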